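import Pool.Agent.H11.LGR.Targets

/-!
# MP_335823_al, row VRB: derived groups
-/

set_option autoImplicit false

open MvPolynomial Pool.Agent.H87.CLG Pool.Agent.H11.LGR

open scoped commutatorElement

namespace Pool.Agent.H86.LGR

universe u v w

/-- the commutators, in the derived group -/
def XC (N : Type u) [Group N] : Set (commutator N) := {h | ∃ a b : N, (h : N) = ⁅a, b⁆}

theorem gx {N : Type u} [Group N] : GX (XC N) where
  one := ⟨1, 1, by simp⟩
  inv := by
    rintro x ⟨a, b, h⟩
    exact ⟨b, a, by rw [Subgroup.coe_inv, h, commutatorElement_inv]⟩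
  conj := by
    rintro g x ⟨a, b, h⟩
    refine ⟨(g : N) * a * (g : N)⁻¹, (g : N) * b * (g : N)⁻¹, ?_⟩
    rw [Subgroup.coe_mul, Subgroup.coe_mul, Subgroup.coe_inv, h]
    simp only [commutatorElement_def]
    group
  gen := by
    have key : ∀ x ∈ Subgroup.closure (commutatorSet N), ∀ hx : x ∈ commutator N,
        (⟨x, hx⟩ : commutator N) ∈ Subgroup.closure (XC N) := by
      intro x hx
      induction hx using Subgroup.closure_induction with
      | mem x hx =>
        intro hx'
        obtain ⟨a, b, hab⟩ := hx
        exact Subgroup.subset_closure ⟨a, b, hab.symm⟩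
      | one => intro hx'; exact one_mem _
      | mul x y hx hy ihx ihy =>
        intro hxy
        rw [← commutator_eq_closure] at hx hy
        exact mul_mem (ihx hx) (ihy hy)
      | inv x hx ih =>
        intro hxi
        rw [← commutator_eq_closure] at hx
        exact inv_mem (ih hx)
    rw [eq_top_iff]
    rintro ⟨x, hx⟩ _
    refine key x ?_ hx
    rw [← commutator_eq_closure]
    exact hx

theorem prod_eq {N : Type u} [Group N] (l : List (commutator N)) (hl : ∀ x ∈ l, x ∈ XC N) :
    ∃ a b : ℕ → N, (l.prod : N) = pc a b l.length := by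
  have h1 : ∀ i, ∃ a b : N, ∀ h : i < l.length, ((l[i] : commutator N) : N) = ⁅a, b⁆ := by
    intro i
    by_cases hi : i < l.length
    · obtain ⟨a, b, hab⟩ := hl _ (List.getElem_mem hi)
      exact ⟨a, b, fun _ => hab⟩
    · exact ⟨1, 1, fun h => absurd h hi⟩
  choose a b hab using h1
  refine ⟨a, b, ?_⟩
  unfold pc
  have h2 : (l.prod : N) = (l.map (fun x : commutator N => (x : N))).prod := by
    exact map_list_prod (commutator N).subtype l
  rw [h2]
  congr 1
  apply List.ext_getElem
  · rw [List.length_map, List.length_map, List.length_range]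
  · intro i hi1 hi2
    rw [List.length_map] at hi1
    rw [List.getElem_map, List.getElem_map, List.getElem_range]
    exact hab i hi1

theorem pf_VRB (hUTH : T_UTH.{u, v, w}) : T_VRB.{u, v, w} := by
  intro n ν hν
  obtain ⟨e, he, H⟩ := hUTH n ν hν
  refine ⟨e, he, ?_⟩
  intro N R M _ _ _ _ g ρ hg hρ hpc h hh
  have hLX : LX ν (XC N) (ρ.comp (commutator N).subtype) := by
    intro l hl
    obtain ⟨a, b, hab⟩ := prod_eq l hl
    have h1 : (l.prod : N) ^ ν l.length = 1 := by
      rw [hab]
      exact hpc _ a b
    rw [MonoidHom.comp_apply, ← map_pow]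
    change ρ ((l.prod : N) ^ ν l.length) = 1
    rw [h1, map_one]
  have h2 := H (commutator N) R M g (ρ.comp (commutator N).subtype) (XC N) hg gx hLX ⟨h, hh⟩
  have h3 : ρ (h ^ e) = ρ 1 := by
    rw [map_one]
    exact h2
  exact hρ h3

end Pool.Agent.H86.LGR
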